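import Mathlib

/-! Central Delannoy numbers `D_n = ∑ C(n+k,2k) C(2k,k)` and the sums
`∑ C(n+k,2k) C(2k,k) / (2k - 2r - 1)`. -/

set_option autoImplicit false

namespace Pool.Agent.Helper484_Delannoy

open Finset

/-- `u_k(n) = C(n+k,2k) C(2k,k)`. -/
def u (n k : ℕ) : ℕ := (n + k).choose (2 * k) * (2 * k).choose k

theorem u_zero {n k : ℕ} (h : n < k) : u n k = 0 := by
  unfold u
  rw [Nat.choose_eq_zero_of_lt (by omega), zero_mul]

theorem u_b (n k : ℕ) : ((n : ℚ) + 1 - k) * (u (n + 1) k : ℚ) = ((n : ℚ) + 1 + k) * (u n k : ℚ) := by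
  rcases Nat.lt_or_ge n k with h | h
  · rw [u_zero h]
    rcases Nat.lt_or_ge (n + 1) k with h2 | h2
    · rw [u_zero h2]
      simp
    · have : k = n + 1 := by omega
      subst this
      push_cast
      ring
  · obtain ⟨l, rfl⟩ := Nat.exists_eq_add_of_le h
    have h1 := Nat.choose_mul_succ_eq (k + l + k) (2 * k)
    have e : k + l + k + 1 - 2 * k = l + 1 := by omega
    rw [e] at h1
    have e2 : k + l + 1 + k = k + l + k + 1 := by ring
    unfold u
    rw [e2]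
    have h2 : ((k + l + k).choose (2 * k) : ℚ) * (2 * k + l + 1)
        = ((k + l + k + 1).choose (2 * k) : ℚ) * (l + 1) := by
      have : ((k + l + k).choose (2 * k) : ℚ) * ((k + l + k + 1 : ℕ) : ℚ)
        = ((k + l + k + 1).choose (2 * k) : ℚ) * ((l + 1 : ℕ) : ℚ) := by exact_mod_cast h1
      push_cast at this
      linarith
    push_cast
    linear_combination (-((2 * k).choose k : ℚ)) * h2

theorem u_a (n k : ℕ) : ((k : ℚ) + 1) ^ 2 * (u n (k + 1) : ℚ)
    = ((n : ℚ) - k) * ((n : ℚ) + k + 1) * (u n k : ℚ) := by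
  rcases Nat.lt_or_ge n (k + 1) with h | h
  · rw [u_zero h]
    rcases Nat.lt_or_ge n k with h2 | h2
    · rw [u_zero h2]
      simp
    · have : n = k := by omega
      subst this
      simp
  · obtain ⟨l, rfl⟩ := Nat.exists_eq_add_of_le h
    -- n = k + 1 + l
    have a1 := Nat.add_one_mul_choose_eq (2 * k + 1 + l) (2 * k + 1)
    have a2 := Nat.choose_succ_right_eq (2 * k + 1 + l) (2 * k)
    have e2 : 2 * k + 1 + l - 2 * k = l + 1 := by omega
    rw [e2] at a2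
    have a3 := Nat.succ_mul_centralBinom_succ k
    unfold Nat.centralBinom at a3
    unfold u
    have e3 : k + 1 + l + (k + 1) = 2 * k + 1 + l + 1 := by ring
    have e4 : k + 1 + l + k = 2 * k + 1 + l := by ring
    have e5 : 2 * (k + 1) = 2 * k + 1 + 1 := by ring
    rw [e3, e4, e5]
    rw [e5] at a3
    have b1 : (2 * (k : ℚ) + 2 + l) * ((2 * k + 1 + l).choose (2 * k + 1) : ℚ)
        = ((2 * k + 1 + l + 1).choose (2 * k + 1 + 1) : ℚ) * (2 * k + 2) := by
      have : ((2 * k + 1 + l + 1 : ℕ) : ℚ) * ((2 * k + 1 + l).choose (2 * k + 1) : ℚ)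
        = ((2 * k + 1 + l + 1).choose (2 * k + 1 + 1) : ℚ) * ((2 * k + 1 + 1 : ℕ) : ℚ) := by
        exact_mod_cast a1
      push_cast at this
      linarith
    have b2 : ((2 * k + 1 + l).choose (2 * k + 1) : ℚ) * (2 * k + 1)
        = ((2 * k + 1 + l).choose (2 * k) : ℚ) * (l + 1) := by
      have : ((2 * k + 1 + l).choose (2 * k + 1) : ℚ) * ((2 * k + 1 : ℕ) : ℚ)
        = ((2 * k + 1 + l).choose (2 * k) : ℚ) * ((l + 1 : ℕ) : ℚ) := by exact_mod_cast a2
      push_cast at this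
      linarith
    have b3 : ((k : ℚ) + 1) * ((2 * k + 1 + 1).choose (k + 1) : ℚ)
        = 2 * (2 * k + 1) * ((2 * k).choose k : ℚ) := by exact_mod_cast a3
    push_cast
    generalize ((2 * k + 1 + l + 1).choose (2 * k + 1 + 1) : ℚ) = A at *
    generalize ((2 * k + 1 + l).choose (2 * k + 1) : ℚ) = B at *
    generalize ((2 * k + 1 + l).choose (2 * k) : ℚ) = C at *
    generalize ((2 * k + 1 + 1).choose (k + 1) : ℚ) = E at *
    generalize ((2 * k).choose k : ℚ) = G at *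
    linear_combination ((k : ℚ) + 1) * A * b3 - (2 * k + 1) * G * b1
      + (2 * (k : ℚ) + 2 + l) * G * b2

theorem u_c (n k : ℕ) : ((k : ℚ) + 1) ^ 2 * (u (n + 1) (k + 1) : ℚ)
    = ((n : ℚ) + k + 2) * ((n : ℚ) + k + 1) * (u n k : ℚ) := by
  have h1 := u_a (n + 1) k
  have h2 := u_b n k
  push_cast at h1
  linear_combination h1 + ((n : ℚ) + k + 2) * h2

/-- the termwise three term recurrence -/
theorem u_rec (n k : ℕ) : ((n : ℚ) + 2) * (u (n + 2) (k + 1) : ℚ) + ((n : ℚ) + 1) * (u n (k + 1) : ℚ)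
    = (2 * (n : ℚ) + 3) * ((u (n + 1) (k + 1) : ℚ) + 2 * (u (n + 1) k : ℚ)) := by
  have h1 := u_c (n + 1) k
  have h2 := u_a (n + 1) k
  have h3 := u_a n k
  have h4 := u_b n k
  push_cast at h1 h2
  have hk : ((k : ℚ) + 1) ^ 2 ≠ 0 := by positivity
  apply mul_left_cancel₀ hk
  linear_combination ((n : ℚ) + 2) * h1 + ((n : ℚ) + 1) * h3 - (2 * (n : ℚ) + 3) * h2
    - ((n : ℚ) + 1) * ((n : ℚ) - k) * h4

theorem u_k0 (n : ℕ) : u n 0 = 1 := by simp [u]

/-- The central Delannoy numbers. -/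
def D (n : ℕ) : ℚ := ∑ k ∈ range (n + 1), (u n k : ℚ)

theorem sum_ext (n m : ℕ) (h : n ≤ m) (c : ℕ → ℚ) :
    ∑ k ∈ range (n + 1), c k * (u n k : ℚ) = ∑ k ∈ range (m + 1), c k * (u n k : ℚ) := by
  apply Finset.sum_subset
  · intro x hx
    simp only [mem_range] at hx ⊢
    omega
  · intro x _ hx
    simp only [mem_range, not_lt] at hx
    rw [u_zero (by omega)]
    simp

theorem D_ext (n m : ℕ) (h : n ≤ m) : D n = ∑ k ∈ range (m + 1), (u n k : ℚ) := by
  have := sum_ext n m h (fun _ => 1)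
  simpa [D] using this

theorem D_rec (n : ℕ) : ((n : ℚ) + 2) * D (n + 2) = 3 * (2 * (n : ℚ) + 3) * D (n + 1)
    - ((n : ℚ) + 1) * D n := by
  have h1 : ((n : ℚ) + 2) * D (n + 2) + ((n : ℚ) + 1) * D n
      = (2 * (n : ℚ) + 3) * D (n + 1) + (2 * (n : ℚ) + 3) * (2 * D (n + 1)) := by
    rw [D_ext (n + 2) (n + 2) le_rfl, D_ext n (n + 2) (by omega)]
    nth_rewrite 1 [D_ext (n + 1) (n + 2) (by omega)]
    rw [D_ext (n + 1) (n + 1) (by omega)]
    rw [sum_range_succ', sum_range_succ' (fun k => (u n k : ℚ)), sum_range_succ' (fun k => (u (n + 1) k : ℚ)) (n + 2)]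
    simp only [u_k0]
    have h2 : ∀ k ∈ range (n + 2), ((n : ℚ) + 2) * (u (n + 2) (k + 1) : ℚ) +
        ((n : ℚ) + 1) * (u n (k + 1) : ℚ) - (2 * (n : ℚ) + 3) * (u (n + 1) (k + 1) : ℚ)
        - (2 * (n : ℚ) + 3) * (2 * (u (n + 1) k : ℚ)) = 0 := by
      intro k _
      have := u_rec n k
      linarith
    have h3 := sum_congr rfl h2
    rw [sum_sub_distrib, sum_sub_distrib, sum_add_distrib, sum_const_zero, ← mul_sum, ← mul_sum,
      ← mul_sum, ← mul_sum, ← mul_sum] at h3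
    push_cast
    linear_combination h3
  linarith

/-- `∑ C(n+k,2k) C(2k,k) / (2k - c)`. -/
def R (c : ℤ) (n : ℕ) : ℚ := ∑ k ∈ range (n + 1), (1 / (2 * (k : ℚ) - c)) * (u n k : ℚ)

theorem odd_ne (k : ℕ) (c : ℤ) (hc : Odd c) : (2 * (k : ℚ) - c) ≠ 0 := by
  intro h
  have : (2 * (k : ℤ) - c) = 0 := by exact_mod_cast h
  obtain ⟨m, rfl⟩ := hc
  omega

theorem R_rec (c : ℤ) (hc : Odd c) (n : ℕ) :
    (2 * (n : ℚ) + 2 - c) * R c (n + 1) = (2 * (n : ℚ) + 2 + c) * R c n + D (n + 1) + D n := by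
  have h1 := sum_ext n (n + 1) (by omega) (fun k => 1 / (2 * (k : ℚ) - c))
  have h2 : R c n = ∑ k ∈ range (n + 1 + 1), (1 / (2 * (k : ℚ) - c)) * (u n k : ℚ) := h1
  rw [h2, D_ext (n + 1) (n + 1) le_rfl, D_ext n (n + 1) (by omega)]
  unfold R
  rw [mul_sum, mul_sum, ← sum_add_distrib, ← sum_add_distrib]
  apply sum_congr rfl
  intro k _
  have hk := odd_ne k c hc
  have hb := u_b n k
  field_simp
  linear_combination 2 * hb

end Pool.Agent.Helper484_Delannoy
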