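import Pool.Agent.helper484_delannoy.Tele
import Pool.Agent.helper484_intpoly.Basic

/-! The sequences `D_n` and `R_n` modulo `128`. -/

set_option autoImplicit false

namespace Pool.Agent.Helper484_Delannoy

open Finset Pool.Agent.Helper484_IntPoly

/-- `D_n` as an integer. -/
def Dz (n : ℕ) : ℤ := ∑ k ∈ range (n + 1), (u n k : ℤ)

theorem Dz_eq (n : ℕ) : D n = (Dz n : ℚ) := by
  unfold D Dz
  push_cast
  rfl

/-- `D_n = ∑ 2^j C(n,j)²`. -/
theorem Dz_pow (n : ℕ) : Dz n = ∑ j ∈ range (n + 1), 2 ^ j * (n.choose j : ℤ) ^ 2 := by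
  have h1 : ∀ k ∈ range (n + 1), u n k = n.choose k * ∑ j ∈ range (n + 1), n.choose j * k.choose j := by
    intro k hk
    rw [mem_range] at hk
    have a : u n k = n.choose k * (n + k).choose k := by
      unfold u
      have := Nat.choose_mul (n := n + k) (k := 2 * k) (s := k) (by omega)
      have e1 : n + k - k = n := by omega
      have e2 : 2 * k - k = k := by omega
      rw [e1, e2] at this
      rw [this]
      ring
    rw [a, Nat.add_choose_eq]
    congr 1
    rw [Finset.Nat.sum_antidiagonal_eq_sum_range_succ_mk]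
    have h2 : ∑ j ∈ range (n + 1), n.choose j * k.choose j
        = ∑ j ∈ range (k + 1), n.choose j * k.choose j := by
      symm
      apply Finset.sum_subset
      · intro x hx
        simp only [mem_range] at *
        omega
      · intro x _ hx
        simp only [mem_range, not_lt] at hx
        rw [Nat.choose_eq_zero_of_lt (show k < x by omega), mul_zero]
    rw [h2]
    apply sum_congr rfl
    intro j hj
    rw [mem_range] at hj
    simp only [Nat.succ_eq_add_one] at *
    rw [Nat.choose_symm (show j ≤ k by omega)]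
  unfold Dz
  have h3 : ∑ k ∈ range (n + 1), u n k = ∑ j ∈ range (n + 1), 2 ^ (n - j) * (n.choose j) ^ 2 := by
    rw [sum_congr rfl h1]
    simp_rw [mul_sum]
    rw [sum_comm]
    apply sum_congr rfl
    intro j hj
    rw [mem_range] at hj
    have h4 : ∀ k ∈ range (n + 1), n.choose k * (n.choose j * k.choose j)
        = (n.choose j) ^ 2 * (if j ≤ k then (n - j).choose (k - j) else 0) := by
      intro k hk
      rw [mem_range] at hk
      split_ifs with hjk
      · have := Nat.choose_mul (n := n) (k := k) (s := j) hjk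
        calc n.choose k * (n.choose j * k.choose j) = n.choose j * (n.choose k * k.choose j) := by ring
          _ = _ := by rw [this]; ring
      · rw [Nat.choose_eq_zero_of_lt (show k < j by omega)]
        simp
    rw [sum_congr rfl h4, ← mul_sum]
    have h5 : ∑ k ∈ range (n + 1), (if j ≤ k then (n - j).choose (k - j) else 0) = 2 ^ (n - j) := by
      have hr : n + 1 = j + (n - j + 1) := by omega
      rw [hr, sum_range_add]
      have z1 : ∑ x ∈ range j, (if j ≤ x then (n - j).choose (x - j) else 0) = 0 := by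
        apply sum_eq_zero
        intro x hx
        rw [mem_range] at hx
        rw [if_neg (by omega)]
      rw [z1, zero_add, ← Nat.sum_range_choose (n - j)]
      apply sum_congr rfl
      intro x _
      rw [if_pos (by omega)]
      congr 1
      omega
    rw [h5]
    ring
  have h6 : ∑ k ∈ range (n + 1), (u n k : ℤ) = ((∑ k ∈ range (n + 1), u n k : ℕ) : ℤ) := by
    push_cast
    rfl
  rw [h6, h3, ← sum_range_reflect]
  push_cast
  apply sum_congr rfl
  intro j hj
  rw [mem_range] at hj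
  rw [Nat.choose_symm (by omega)]
  congr 2
  omega

/-- Binomial coefficients in a form fast to evaluate. -/
def ch (n j : ℕ) : ℕ := n.descFactorial j / j.factorial

theorem ch_eq (n j : ℕ) : ch n j = n.choose j := (Nat.choose_eq_descFactorial_div_factorial n j).symm

/-- `D_n` modulo `128`. -/
def Dt (n : ℕ) : ℤ := 1 + 2 * (ch n 1 : ℤ) ^ 2 + 4 * (ch n 2 : ℤ) ^ 2 + 8 * (ch n 3 : ℤ) ^ 2 +
  16 * (ch n 4 : ℤ) ^ 2 + 32 * (ch n 5 : ℤ) ^ 2 + 64 * (ch n 6 : ℤ) ^ 2

/-- `R_n` modulo `128`. -/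
def Rt (n : ℕ) : ℤ := -1 + 2 * (ch n 1 : ℤ) + 4 * (ch n 2 : ℤ) + 8 * (ch n 3 : ℤ) +
  24 * (ch n 4 : ℤ) + 80 * (ch n 5 : ℤ) + 32 * (ch n 6 : ℤ) + 64 * (ch n 7 : ℤ) +
  32 * (ch n 8 : ℤ) + 64 * (ch n 9 : ℤ)

theorem IP_ch (j : ℕ) : IP j (fun n => (ch n j : ℤ)) := by
  simp_rw [ch_eq]
  exact IP.choose j

theorem IP_Dt : IP 12 Dt := by
  have h : ∀ (c : ℤ) (j : ℕ), j ≤ 6 → IP 12 (fun n => c * (ch n j : ℤ) ^ 2) := by
    intro c j hj
    exact ((IP.const c).mul ((IP_ch j).pow 2)).mono (by omega)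
  unfold Dt
  exact (((((((IP.const 1).add (h 2 1 (by norm_num))).add (h 4 2 (by norm_num))).add
    (h 8 3 (by norm_num))).add (h 16 4 (by norm_num))).add (h 32 5 (by norm_num))).add
    (h 64 6 (by norm_num))).mono (by norm_num)

theorem IP_Rt : IP 9 Rt := by
  have h : ∀ (c : ℤ) (j : ℕ), j ≤ 9 → IP 9 (fun n => c * (ch n j : ℤ)) := by
    intro c j hj
    exact ((IP.const c).mul (IP_ch j)).mono (by omega)
  unfold Rt
  exact ((((((((((IP.const (-1)).add (h 2 1 (by norm_num))).add (h 4 2 (by norm_num))).add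
    (h 8 3 (by norm_num))).add (h 24 4 (by norm_num))).add (h 80 5 (by norm_num))).add
    (h 32 6 (by norm_num))).add (h 64 7 (by norm_num))).add (h 32 8 (by norm_num))).add
    (h 64 9 (by norm_num))).mono (by norm_num)

theorem Dz_mod (n : ℕ) : (Dz n : ZMod 128) = (Dt n : ZMod 128) := by
  rw [Dz_pow]
  have h1 : ∑ j ∈ range (n + 1), 2 ^ j * (n.choose j : ℤ) ^ 2
      = ∑ j ∈ range (n + 1 + 7), 2 ^ j * (n.choose j : ℤ) ^ 2 := by
    apply Finset.sum_subset
    · intro x hx
      simp only [mem_range] at *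
      omega
    · intro x _ hx
      simp only [mem_range, not_lt] at hx
      rw [Nat.choose_eq_zero_of_lt (by omega)]
      simp
  rw [h1]
  have e : n + 1 + 7 = 7 + (n + 1) := by ring
  rw [e, sum_range_add]
  push_cast
  have h2 : ∑ x ∈ range (n + 1), (2 : ZMod 128) ^ (7 + x) * (n.choose (7 + x) : ZMod 128) ^ 2 = 0 := by
    apply sum_eq_zero
    intro x _
    have : (2 : ZMod 128) ^ 7 = 0 := by decide
    rw [pow_add, this]
    simp
  rw [h2, add_zero]
  unfold Dt
  simp only [ch_eq]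
  simp only [sum_range_succ, range_zero, sum_empty]
  push_cast
  simp only [Nat.choose_zero_right]
  push_cast
  ring

/-- `R_n` as an integer. -/
def Rz (n : ℕ) : ℤ := -1 + ∑ k ∈ range n, 2 * (catalan k : ℤ) * ((n + (k + 1)).choose (2 * (k + 1)) : ℤ)

theorem cb_cat (k : ℕ) : ((2 * (k + 1)).choose (k + 1) : ℚ) = 2 * (2 * (k : ℚ) + 1) * (catalan k : ℚ) := by
  have h1 := succ_mul_catalan_eq_centralBinom k
  have h2 := Nat.succ_mul_centralBinom_succ k
  have h1' : ((k : ℚ) + 1) * (catalan k : ℚ) = (k.centralBinom : ℚ) := by exact_mod_cast h1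
  have h2' : ((k : ℚ) + 1) * ((k + 1).centralBinom : ℚ) = 2 * (2 * k + 1) * (k.centralBinom : ℚ) := by
    exact_mod_cast h2
  have hk : ((k : ℚ) + 1) ≠ 0 := by positivity
  have : ((2 * (k + 1)).choose (k + 1) : ℚ) = ((k + 1).centralBinom : ℚ) := rfl
  rw [this]
  apply mul_left_cancel₀ hk
  rw [h2', ← h1']
  ring

theorem Rz_eq (n : ℕ) : R 1 n = (Rz n : ℚ) := by
  unfold R Rz
  rw [sum_range_succ']
  push_cast
  rw [u_k0]
  norm_num
  rw [add_comm]
  congr 1
  apply sum_congr rfl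
  intro k _
  unfold u
  push_cast
  rw [cb_cat]
  have hk : (2 * ((k : ℚ) + 1) - 1) ≠ 0 := by
    have : (0 : ℚ) ≤ k := Nat.cast_nonneg k
    intro h
    linarith
  have e : (2 * ((k : ℚ) + 1) - 1) = 2 * (k : ℚ) + 1 := by ring
  rw [e] at hk ⊢
  field_simp

theorem Rz_step (n : ℕ) : (2 * (n : ℤ) + 1) * Rz (n + 1)
    = (2 * (n : ℤ) + 3) * Rz n + Dz (n + 1) + Dz n := by
  have h := R1_step n
  rw [Rz_eq, Rz_eq, Dz_eq, Dz_eq] at h
  exact_mod_cast h

theorem Rt_step (n : ℕ) : (128 : ℤ) ∣ (2 * (n : ℤ) + 1) * Rt (n + 1)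
    - ((2 * (n : ℤ) + 3) * Rt n + Dt (n + 1) + Dt n) := by
  have h1 : IP 12 (fun n => (2 * (n : ℤ) + 1) * Rt (n + 1)
    - ((2 * (n : ℤ) + 3) * Rt n + Dt (n + 1) + Dt n)) := by
    have a1 : IP 1 (fun n => 2 * (n : ℤ) + 1) :=
      (((IP.const 2).mul IP.id).add (IP.const 1)).mono (by norm_num)
    have a3 : IP 1 (fun n => 2 * (n : ℤ) + 3) :=
      (((IP.const 2).mul IP.id).add (IP.const 3)).mono (by norm_num)
    exact ((a1.mul IP_Rt.shift).sub (((a3.mul IP_Rt).add IP_Dt.shift).add IP_Dt)).mono (by norm_num)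
  exact IP.dvd h1 128 (by decide +kernel) n

theorem unit_odd (n : ℕ) : IsUnit ((2 * (n : ZMod 128) + 1)) := by
  have : IsUnit ((2 * n + 1 : ℕ) : ZMod 128) := by
    rw [ZMod.isUnit_iff_coprime]
    have : (128 : ℕ) = 2 ^ 7 := by norm_num
    rw [this]
    apply Nat.Coprime.pow_right
    rw [Nat.coprime_two_right]
    exact ⟨n, rfl⟩
  push_cast at this
  exact this

theorem Rz_mod (n : ℕ) : (Rz n : ZMod 128) = (Rt n : ZMod 128) := by
  induction n with
  | zero => decide
  | succ n ih =>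
    have h1 := congrArg (Int.cast : ℤ → ZMod 128) (Rz_step n)
    have h2 := (ZMod.intCast_zmod_eq_zero_iff_dvd _ 128).2 (by exact_mod_cast Rt_step n)
    push_cast at h1 h2
    apply (unit_odd n).mul_left_cancel
    rw [h1, ih, Dz_mod, Dz_mod]
    linear_combination (-1) * h2

/-- The key congruence for `R`. -/
theorem X_mod (n : ℕ) : (128 : ℤ) ∣ Xf ((n : ℤ) + 1) (Rz (n + 1)) (Dz (n + 1)) (Dz n)
    - 8 * ((n : ℤ) + 1) * (2 * ((n : ℤ) + 1) + 1) ^ 2 := by
  have h1 : IP 25 (fun n => Xf ((n : ℤ) + 1) (Rt (n + 1)) (Dt (n + 1)) (Dt n)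
    - 8 * ((n : ℤ) + 1) * (2 * ((n : ℤ) + 1) + 1) ^ 2) := by
    have c : ∀ z : ℤ, IP 0 (fun _ => z) := IP.const
    have N : IP 1 (fun n => (n : ℤ) + 1) := (IP.id.add (c 1)).mono (by norm_num)
    have r := IP_Rt.shift
    have d := IP_Dt.shift
    have e := IP_Dt
    unfold Xf
    exact ((((((((((c 16).mul (N.pow 3)).sub ((c 8).mul N)).mul (r.pow 2)).add
      ((((c 4).sub ((c 8).mul N)).sub ((c 24).mul (N.pow 2))).mul (r.mul d))).add
      ((((c 4).add ((c 8).mul N)).add ((c 8).mul (N.pow 2))).mul (r.mul e))).add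
      (((c 4).add ((c 7).mul N)).mul (d.pow 2))).add
      (((c 4).add ((c 6).mul N)).mul (d.mul e))).sub (N.mul (e.pow 2))).sub
      (((c 8).mul N).mul ((((c 2).mul N).add (c 1)).pow 2))).mono (by norm_num)
  have h2 := IP.dvd h1 128 (by decide +kernel) n
  have h3 := (ZMod.intCast_zmod_eq_zero_iff_dvd _ 128).2 (by exact_mod_cast h2)
  have h4 : ((Xf ((n : ℤ) + 1) (Rz (n + 1)) (Dz (n + 1)) (Dz n)
    - 8 * ((n : ℤ) + 1) * (2 * ((n : ℤ) + 1) + 1) ^ 2 : ℤ) : ZMod 128) = 0 := by
    rw [← h3]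
    unfold Xf
    push_cast
    rw [Rz_mod, Dz_mod, Dz_mod]
  have h5 := (ZMod.intCast_zmod_eq_zero_iff_dvd _ 128).1 h4
  exact_mod_cast h5

/-- The key congruence for `W`. -/
theorem Y_mod (n : ℕ) : (64 : ℤ) ∣ Yf ((n : ℤ) + 1) (Rz (n + 1)) (Dz (n + 1)) (Dz n)
    - 72 * ((n : ℤ) + 1) * (2 * ((n : ℤ) + 1) + 1) ^ 2 := by
  have h1 : IP 29 (fun n => 2 * (Yf ((n : ℤ) + 1) (Rt (n + 1)) (Dt (n + 1)) (Dt n)
    - 72 * ((n : ℤ) + 1) * (2 * ((n : ℤ) + 1) + 1) ^ 2)) := by
    have c : ∀ z : ℤ, IP 0 (fun _ => z) := IP.const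
    have N : IP 1 (fun n => (n : ℤ) + 1) := (IP.id.add (c 1)).mono (by norm_num)
    have r := IP_Rt.shift
    have d := IP_Dt.shift
    have e := IP_Dt
    unfold Yf
    refine ((c 2).mul (IP.sub (d := 29) (e := 3) ?_ ?_)).mono (by norm_num)
    · refine (IP.add (d := 29) (e := 29) ?_ ?_).mono (by norm_num)
      · refine (IP.add (d := 29) (e := 29) ?_ ?_).mono (by norm_num)
        · refine (IP.add (d := 29) (e := 29) ?_ ?_).mono (by norm_num)
          · refine (IP.add (d := 29) (e := 29) ?_ ?_).mono (by norm_num)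
            · refine (IP.add (d := 29) (e := 29) ?_ ?_).mono (by norm_num)
              · exact ((((((c 360).mul N).neg.add ((c 944).mul (N.pow 3))).sub
                  ((c 640).mul (N.pow 5))).add ((c 128).mul (N.pow 7))).mul (r.pow 2)).mono
                  (by norm_num)
              · exact ((((((((c 108).sub ((c 504).mul N)).sub ((c 888).mul (N.pow 2))).add
                  ((c 768).mul (N.pow 3))).add ((c 576).mul (N.pow 4))).sub
                  ((c 192).mul (N.pow 5))).sub ((c 192).mul (N.pow 6))).mul (r.mul d)).mono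
                  (by norm_num)
            · exact ((((((((c 108).add ((c 216).mul N)).add ((c 552).mul (N.pow 2))).add
                ((c 448).mul (N.pow 3))).sub ((c 64).mul (N.pow 4))).sub
                ((c 64).mul (N.pow 5))).add ((c 64).mul (N.pow 6))).mul (r.mul e)).mono
                (by norm_num)
          · exact (((((((c 108).add ((c 45).mul N)).sub ((c 288).mul (N.pow 2))).add
              ((c 144).mul (N.pow 4))).add ((c 72).mul (N.pow 5)))).mul (d.pow 2)).mono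
              (by norm_num)
        · exact (((((c 108).add ((c 18).mul N)).sub ((c 240).mul (N.pow 2))).sub
            ((c 48).mul (N.pow 5))).mul (d.mul e)).mono (by norm_num)
      · exact (((((((c 27).mul N).neg.add ((c 48).mul (N.pow 2))).add ((c 32).mul (N.pow 3))).sub
          ((c 16).mul (N.pow 4))).add ((c 8).mul (N.pow 5))).mul (e.pow 2)).mono (by norm_num)
    · exact (((c 72).mul N).mul ((((c 2).mul N).add (c 1)).pow 2)).mono (by norm_num)
  have h2 := IP.dvd h1 128 (by decide +kernel) n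
  have h3 := (ZMod.intCast_zmod_eq_zero_iff_dvd _ 128).2 (by exact_mod_cast h2)
  have h4 : ((2 * (Yf ((n : ℤ) + 1) (Rz (n + 1)) (Dz (n + 1)) (Dz n)
    - 72 * ((n : ℤ) + 1) * (2 * ((n : ℤ) + 1) + 1) ^ 2) : ℤ) : ZMod 128) = 0 := by
    rw [← h3]
    unfold Yf
    push_cast
    rw [Rz_mod, Dz_mod, Dz_mod]
  have h5 := (ZMod.intCast_zmod_eq_zero_iff_dvd _ 128).1 h4
  have h6 : (128 : ℤ) ∣ 2 * (Yf ((n : ℤ) + 1) (Rz (n + 1)) (Dz (n + 1)) (Dz n)
    - 72 * ((n : ℤ) + 1) * (2 * ((n : ℤ) + 1) + 1) ^ 2) := by exact_mod_cast h5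
  omega

end Pool.Agent.Helper484_Delannoy
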