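import Pool.Agent.helper484_delannoy.Basic

/-! Telescoping formulas for the sums of `(2k+1) R_k²` and `(2k+1) W_k²`. -/

set_option autoImplicit false

namespace Pool.Agent.Helper484_Delannoy

open Finset

/-- The quadratic form for `R`. -/
def Xf {K : Type*} [CommRing K] (N r d e : K) : K :=
  (16 * N ^ 3 - 8 * N) * r ^ 2 + (4 - 8 * N - 24 * N ^ 2) * (r * d) +
    (4 + 8 * N + 8 * N ^ 2) * (r * e) + (4 + 7 * N) * d ^ 2 + (4 + 6 * N) * (d * e) - N * e ^ 2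

/-- The quadratic form for `W`. -/
def Yf {K : Type*} [CommRing K] (N r d e : K) : K :=
  (-(360 * N) + 944 * N ^ 3 - 640 * N ^ 5 + 128 * N ^ 7) * r ^ 2 +
  (108 - 504 * N - 888 * N ^ 2 + 768 * N ^ 3 + 576 * N ^ 4 - 192 * N ^ 5 - 192 * N ^ 6) * (r * d) +
  (108 + 216 * N + 552 * N ^ 2 + 448 * N ^ 3 - 64 * N ^ 4 - 64 * N ^ 5 + 64 * N ^ 6) * (r * e) +
  (108 + 45 * N - 288 * N ^ 2 + 144 * N ^ 4 + 72 * N ^ 5) * d ^ 2 +
  (108 + 18 * N - 240 * N ^ 2 - 48 * N ^ 5) * (d * e) +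
  (-(27 * N) + 48 * N ^ 2 + 32 * N ^ 3 - 16 * N ^ 4 + 8 * N ^ 5) * e ^ 2

theorem D0 : D 0 = 1 := by norm_num [D, u]

theorem D1 : D 1 = 3 := by norm_num [D, u, sum_range_succ, Nat.choose]

theorem R10 : R 1 0 = -1 := by norm_num [R, u]

theorem R30 : R 3 0 = -1 / 3 := by norm_num [R, u]

theorem R11 : R 1 1 = 1 := by norm_num [R, u, sum_range_succ, Nat.choose]

theorem R31 : R 3 1 = -7 / 3 := by norm_num [R, u, sum_range_succ, Nat.choose]

theorem R1_step (n : ℕ) : (2 * (n : ℚ) + 1) * R 1 (n + 1)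
    = (2 * (n : ℚ) + 3) * R 1 n + D (n + 1) + D n := by
  have := R_rec 1 odd_one n
  push_cast at this
  linear_combination this

theorem R3_step (n : ℕ) : (2 * (n : ℚ) - 1) * R 3 (n + 1)
    = (2 * (n : ℚ) + 5) * R 3 n + D (n + 1) + D n := by
  have := R_rec 3 (by decide) n
  push_cast at this
  linear_combination this

theorem W_rel (n : ℕ) : 9 * R 3 (n + 1) = (2 * (n : ℚ) + 1) * (2 * n + 5) * R 1 (n + 1)
    - (3 * (n : ℚ) + 9) * D (n + 1) + ((n : ℚ) + 1) * D n := by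
  induction n with
  | zero =>
    rw [zero_add, R31, R11, D1, D0]
    norm_num
  | succ n ih =>
    have h1 := R3_step (n + 1)
    have h2 := R1_step (n + 1)
    have h3 := D_rec n
    push_cast at h1 h2 ⊢
    have hne : (2 * ((n : ℚ) + 1) - 1) ≠ 0 := by
      have : (0 : ℚ) ≤ n := Nat.cast_nonneg n
      intro h
      linarith
    apply mul_left_cancel₀ hne
    linear_combination 9 * h1 + (2 * (n : ℚ) + 7) * ih - (2 * (n : ℚ) + 1) * (2 * n + 7) * h2
      + (2 * (n : ℚ) + 7) * h3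

theorem tele_R (n : ℕ) : 8 * (2 * ((n : ℚ) + 1) + 1) ^ 2 *
    ∑ k ∈ range (n + 1), (2 * (k : ℚ) + 1) * R 1 k ^ 2
    = ((n : ℚ) + 1) * Xf ((n : ℚ) + 1) (R 1 (n + 1)) (D (n + 1)) (D n) := by
  induction n with
  | zero =>
    rw [zero_add, R11, D1, D0]
    simp only [range_one, sum_singleton]
    rw [R10]
    norm_num [Xf]
  | succ n ih =>
    have h2 := R1_step (n + 1)
    have h3 := D_rec n
    rw [sum_range_succ]
    push_cast at h2 ⊢
    have n2 : ((n : ℚ) + 2) ≠ 0 := by positivity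
    have n3 : (2 * ((n : ℚ) + 1) + 1) ≠ 0 := by positivity
    have e1 : D (n + 2) = (3 * (2 * (n : ℚ) + 3) * D (n + 1) - ((n : ℚ) + 1) * D n) /
        ((n : ℚ) + 2) := by
      rw [eq_div_iff n2]
      linear_combination h3
    have e2 : R 1 (n + 2) = ((2 * ((n : ℚ) + 1) + 3) * R 1 (n + 1) + D (n + 2) + D (n + 1)) /
        (2 * ((n : ℚ) + 1) + 1) := by
      rw [eq_div_iff n3]
      linear_combination h2
    have hne : (2 * ((n : ℚ) + 1) + 1) ^ 2 ≠ 0 := by positivity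
    apply mul_left_cancel₀ hne
    have key : (2 * ((n : ℚ) + 1) + 1) ^ 2 * (8 * (2 * ((n : ℚ) + 1 + 1) + 1) ^ 2 *
        (∑ k ∈ range (n + 1), (2 * (k : ℚ) + 1) * R 1 k ^ 2 +
          (2 * (((n + 1 : ℕ) : ℕ) : ℚ) + 1) * R 1 (n + 1) ^ 2))
        = (2 * ((n : ℚ) + 1 + 1) + 1) ^ 2 * (((n : ℚ) + 1) *
          Xf ((n : ℚ) + 1) (R 1 (n + 1)) (D (n + 1)) (D n))
          + 8 * (2 * ((n : ℚ) + 1) + 1) ^ 3 * (2 * ((n : ℚ) + 1 + 1) + 1) ^ 2 *
            R 1 (n + 1) ^ 2 := by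
      push_cast
      linear_combination (2 * ((n : ℚ) + 1 + 1) + 1) ^ 2 * ih
    push_cast at key
    rw [key]
    have e3 : n + 1 + 1 = n + 2 := rfl
    rw [e3, e2, e1]
    unfold Xf
    generalize R 1 (n + 1) = r
    generalize D (n + 1) = d
    generalize D n = e
    generalize (n : ℚ) = N at *
    field_simp
    ring

theorem tele_W (n : ℕ) : 72 * (2 * ((n : ℚ) + 1) + 1) ^ 2 *
    ∑ k ∈ range (n + 1), (2 * (k : ℚ) + 1) * (3 * R 3 k) ^ 2
    = ((n : ℚ) + 1) * Yf ((n : ℚ) + 1) (R 1 (n + 1)) (D (n + 1)) (D n) := by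
  induction n with
  | zero =>
    rw [zero_add, R11, D1, D0]
    simp only [range_one, sum_singleton]
    rw [R30]
    norm_num [Yf]
  | succ n ih =>
    have h1 := W_rel n
    have h2 := R1_step (n + 1)
    have h3 := D_rec n
    rw [sum_range_succ]
    push_cast at h2 ⊢
    have n2 : ((n : ℚ) + 2) ≠ 0 := by positivity
    have n3 : (2 * ((n : ℚ) + 1) + 1) ≠ 0 := by positivity
    have e1 : D (n + 2) = (3 * (2 * (n : ℚ) + 3) * D (n + 1) - ((n : ℚ) + 1) * D n) /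
        ((n : ℚ) + 2) := by
      rw [eq_div_iff n2]
      linear_combination h3
    have e2 : R 1 (n + 2) = ((2 * ((n : ℚ) + 1) + 3) * R 1 (n + 1) + D (n + 2) + D (n + 1)) /
        (2 * ((n : ℚ) + 1) + 1) := by
      rw [eq_div_iff n3]
      linear_combination h2
    have e4 : R 3 (n + 1) = ((2 * (n : ℚ) + 1) * (2 * n + 5) * R 1 (n + 1)
      - (3 * (n : ℚ) + 9) * D (n + 1) + ((n : ℚ) + 1) * D n) / 9 := by
      rw [eq_div_iff (by norm_num)]
      linear_combination h1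
    have hne : (2 * ((n : ℚ) + 1) + 1) ^ 2 ≠ 0 := by positivity
    apply mul_left_cancel₀ hne
    have key : (2 * ((n : ℚ) + 1) + 1) ^ 2 * (72 * (2 * ((n : ℚ) + 1 + 1) + 1) ^ 2 *
        (∑ k ∈ range (n + 1), (2 * (k : ℚ) + 1) * (3 * R 3 k) ^ 2 +
          (2 * (((n + 1 : ℕ) : ℕ) : ℚ) + 1) * (3 * R 3 (n + 1)) ^ 2))
        = (2 * ((n : ℚ) + 1 + 1) + 1) ^ 2 * (((n : ℚ) + 1) *
          Yf ((n : ℚ) + 1) (R 1 (n + 1)) (D (n + 1)) (D n))
          + 72 * (2 * ((n : ℚ) + 1) + 1) ^ 3 * (2 * ((n : ℚ) + 1 + 1) + 1) ^ 2 *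
            (3 * R 3 (n + 1)) ^ 2 := by
      push_cast
      linear_combination (2 * ((n : ℚ) + 1 + 1) + 1) ^ 2 * ih
    push_cast at key
    rw [key]
    have e3 : n + 1 + 1 = n + 2 := rfl
    rw [e3, e4, e2, e1]
    unfold Yf
    generalize R 1 (n + 1) = r
    generalize D (n + 1) = d
    generalize D n = e
    generalize (n : ℚ) = N at *
    field_simp
    ring

end Pool.Agent.Helper484_Delannoy
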