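import Pool.Agent.helper484_delannoy.Mod

/-! The numbers `W_n` are integers. -/

set_option autoImplicit false

namespace Pool.Agent.Helper484_Delannoy

open Finset

/-- `3 C(2k,k) / (2k - 3)`. -/
def wc : ℕ → ℤ
  | 0 => -1
  | 1 => -6
  | (k + 2) => 2 * (catalan (k + 1) : ℤ) + 16 * (catalan k : ℤ)

theorem wc_eq (k : ℕ) : ((2 * k).choose k : ℚ) * 3 = (2 * (k : ℚ) - 3) * (wc k : ℚ) := by
  rcases k with _ | _ | k
  · norm_num [wc]
  · norm_num [wc]
  · have h1 := cb_cat (k + 1)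
    have h2 := succ_mul_catalan_eq_centralBinom (k + 1)
    have h3 := succ_mul_catalan_eq_centralBinom k
    have h4 := Nat.succ_mul_centralBinom_succ k
    have h2' : ((k : ℚ) + 1 + 1) * (catalan (k + 1) : ℚ) = ((k + 1).centralBinom : ℚ) := by
      exact_mod_cast h2
    have h3' : ((k : ℚ) + 1) * (catalan k : ℚ) = (k.centralBinom : ℚ) := by exact_mod_cast h3
    have h4' : ((k : ℚ) + 1) * ((k + 1).centralBinom : ℚ) = 2 * (2 * k + 1) * (k.centralBinom : ℚ) := by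
      exact_mod_cast h4
    have h5 : ((k : ℚ) + 2) * (catalan (k + 1) : ℚ) = 2 * (2 * k + 1) * (catalan k : ℚ) := by
      have hk : ((k : ℚ) + 1) ≠ 0 := by positivity
      apply mul_left_cancel₀ hk
      rw [← h2', ← h3'] at h4'
      linear_combination h4'
    have e : 2 * (k + 1 + 1) = 2 * (k + 1 + 1) := rfl
    push_cast at h1 ⊢
    rw [h1]
    unfold wc
    push_cast
    linear_combination 8 * h5

/-- `W_n` as an integer. -/
def Wz (n : ℕ) : ℤ := ∑ k ∈ range (n + 1), wc k * ((n + k).choose (2 * k) : ℤ)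

theorem Wz_eq (n : ℕ) : 3 * R 3 n = (Wz n : ℚ) := by
  unfold R Wz
  rw [mul_sum]
  push_cast
  apply sum_congr rfl
  intro k _
  have h := wc_eq k
  have hk := odd_ne k 3 (by decide)
  push_cast at hk
  unfold u
  push_cast
  field_simp
  linear_combination ((n + k).choose (2 * k) : ℚ) * h

theorem Y9 (M r d e : ℤ) : (9 : ℤ) ∣ Yf (3 * M) r d e := by
  refine ⟨(-(120 * M) + 2832 * M ^ 3 - 17280 * M ^ 5 + 31104 * M ^ 7) * r ^ 2 +
    (12 - 168 * M - 888 * M ^ 2 + 2304 * M ^ 3 + 5184 * M ^ 4 - 5184 * M ^ 5 - 15552 * M ^ 6) *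
      (r * d) +
    (12 + 72 * M + 552 * M ^ 2 + 1344 * M ^ 3 - 576 * M ^ 4 - 1728 * M ^ 5 + 5184 * M ^ 6) *
      (r * e) +
    (12 + 15 * M - 288 * M ^ 2 + 1296 * M ^ 4 + 1944 * M ^ 5) * d ^ 2 +
    (12 + 6 * M - 240 * M ^ 2 - 1296 * M ^ 5) * (d * e) +
    (-(9 * M) + 48 * M ^ 2 + 96 * M ^ 3 - 144 * M ^ 4 + 216 * M ^ 5) * e ^ 2, ?_⟩
  unfold Yf
  ring

end Pool.Agent.Helper484_Delannoy
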